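import Mathlib

/-!
# Biorthogonal systems in a space with separable dual

Let `E` be an infinite-dimensional normed space with separable dual. There is a biorthogonal system `(e_n, f_n)` such that the
span of the `e_n` is dense in `E` and the span of the `f_n` is dense in the dual of `E`. (Markushevich.)
-/

set_option autoImplicit false

namespace Pool.Agent.J4.H66.Mark

open Set Submodule TopologicalSpace

variable {𝕜 : Type*} [RCLike 𝕜] {E : Type*} [NormedAddCommGroup E] [NormedSpace 𝕜 E]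

/-- biorthogonality of the first `n` pairs -/
def Bi (n : ℕ) (p : ℕ → E × StrongDual 𝕜 E) : Prop :=
  ∀ i < n, ∀ j < n, (p i).2 ((p j).1) = if i = j then 1 else 0

lemma apply_res {n : ℕ} {p : ℕ → E × StrongDual 𝕜 E} (hp : Bi n p) (u : E) {i : ℕ} (hi : i < n) :
    (p i).2 (u - ∑ j ∈ Finset.range n, (p j).2 u • (p j).1) = 0 := by
  rw [map_sub, map_sum, Finset.sum_eq_single_of_mem i (Finset.mem_range.2 hi)]
  · rw [map_smul, hp i hi i hi, if_pos rfl, smul_eq_mul, mul_one, sub_self]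
  · intro j hj hji
    rw [map_smul, hp i hi j (Finset.mem_range.1 hj), if_neg (Ne.symm hji), smul_zero]

lemma res_apply {n : ℕ} {p : ℕ → E × StrongDual 𝕜 E} (hp : Bi n p) (w : StrongDual 𝕜 E) {i : ℕ} (hi : i < n) :
    (w - ∑ j ∈ Finset.range n, w (p j).1 • (p j).2) (p i).1 = 0 := by
  rw [sub_apply, sum_apply,
    Finset.sum_eq_single_of_mem i (Finset.mem_range.2 hi)]
  · rw [smul_apply, hp i hi i hi, if_pos rfl, smul_eq_mul, mul_one, sub_self]
  · intro j hj hji
    rw [smul_apply, hp j (Finset.mem_range.1 hj) i hi, if_neg hji, smul_zero]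

lemma sum_mem_left {n : ℕ} (p : ℕ → E × StrongDual 𝕜 E) (c : ℕ → 𝕜) :
    ∑ j ∈ Finset.range n, c j • (p j).1 ∈ span 𝕜 ((fun j => (p j).1) '' Iio n) :=
  sum_mem fun j hj => smul_mem _ _ (subset_span ⟨j, Finset.mem_range.1 hj, rfl⟩)

lemma sum_mem_right {n : ℕ} (p : ℕ → E × StrongDual 𝕜 E) (c : ℕ → 𝕜) :
    ∑ j ∈ Finset.range n, c j • (p j).2 ∈ span 𝕜 ((fun j => (p j).2) '' Iio n) :=
  sum_mem fun j hj => smul_mem _ _ (subset_span ⟨j, Finset.mem_range.1 hj, rfl⟩)

lemma exists_notMem_left (hinf : ¬ FiniteDimensional 𝕜 E) (n : ℕ) (p : ℕ → E × StrongDual 𝕜 E) :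
    ∃ u : E, u ∉ span 𝕜 ((fun j => (p j).1) '' Iio n) := by
  by_contra h
  push Not at h
  apply hinf
  have h1 : span 𝕜 ((fun j => (p j).1) '' Iio n) = ⊤ := eq_top_iff.2 fun u _ => h u
  refine ⟨?_⟩
  rw [← h1]
  exact Submodule.fg_span ((finite_Iio n).image _)

lemma exists_notMem_right (hinf : ¬ FiniteDimensional 𝕜 E) {n : ℕ} {p : ℕ → E × StrongDual 𝕜 E}
    (hp : Bi n p) : ∃ w : StrongDual 𝕜 E, w ∉ span 𝕜 ((fun j => (p j).2) '' Iio n) := by
  by_contra h
  push Not at h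
  obtain ⟨u, hu⟩ := exists_notMem_left hinf n p
  set e0 := u - ∑ j ∈ Finset.range n, (p j).2 u • (p j).1 with he0
  have h0 : e0 ≠ 0 := by
    intro h0
    apply hu
    rw [sub_eq_zero.1 h0]
    exact sum_mem_left p _
  obtain ⟨w, hw⟩ := SeparatingDual.exists_eq_one (R := 𝕜) h0
  have h1 : ∀ v ∈ span 𝕜 ((fun j => (p j).2) '' Iio n), v e0 = 0 := by
    intro v hv
    induction hv using Submodule.span_induction with
    | mem x hx =>
      obtain ⟨j, hj, rfl⟩ := hx
      exact apply_res hp u hj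
    | zero => rfl
    | add x y _ _ hx hy => rw [add_apply, hx, hy, add_zero]
    | smul c x _ hx => rw [smul_apply, hx, smul_zero]
  rw [h1 w (h w)] at hw
  exact zero_ne_one hw

/-- one step: a new pair that captures a given vector -/
lemma step_left (hinf : ¬ FiniteDimensional 𝕜 E) {n : ℕ} {p : ℕ → E × StrongDual 𝕜 E} (hp : Bi n p) (u0 : E) :
    ∃ x : E × StrongDual 𝕜 E, x.2 x.1 = 1 ∧ (∀ j < n, x.2 ((p j).1) = 0 ∧ (p j).2 x.1 = 0) ∧
      u0 ∈ span 𝕜 (insert x.1 ((fun j => (p j).1) '' Iio n)) := by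
  obtain ⟨u, hu, hu0⟩ : ∃ u : E, u ∉ span 𝕜 ((fun j => (p j).1) '' Iio n) ∧
      (u = u0 ∨ u0 ∈ span 𝕜 ((fun j => (p j).1) '' Iio n)) := by
    by_cases h : u0 ∈ span 𝕜 ((fun j => (p j).1) '' Iio n)
    · obtain ⟨u, hu⟩ := exists_notMem_left hinf n p
      exact ⟨u, hu, Or.inr h⟩
    · exact ⟨u0, h, Or.inl rfl⟩
  set e0 := u - ∑ j ∈ Finset.range n, (p j).2 u • (p j).1 with he0
  have h0 : e0 ≠ 0 := by
    intro h0
    apply hu
    rw [sub_eq_zero.1 h0]
    exact sum_mem_left p _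
  obtain ⟨w, hw⟩ := SeparatingDual.exists_eq_one (R := 𝕜) h0
  refine ⟨(e0, w - ∑ j ∈ Finset.range n, w (p j).1 • (p j).2), ?_, fun j hj => ⟨res_apply hp w hj, apply_res hp u hj⟩,
    ?_⟩
  · show (w - ∑ j ∈ Finset.range n, w (p j).1 • (p j).2) e0 = 1
    rw [sub_apply, sum_apply, hw, Finset.sum_eq_zero, sub_zero]
    intro j hj
    rw [smul_apply, apply_res hp u (Finset.mem_range.1 hj), smul_zero]
  · rcases hu0 with rfl | h
    · have h2 : u = e0 + ∑ j ∈ Finset.range n, (p j).2 u • (p j).1 := by rw [he0]; abel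
      rw [h2]
      refine add_mem (subset_span (mem_insert _ _)) ?_
      exact span_mono (subset_insert _ _) (sum_mem_left p _)
    · exact span_mono (subset_insert _ _) h

/-- one step: a new pair that captures a given functional -/
lemma step_right (hinf : ¬ FiniteDimensional 𝕜 E) {n : ℕ} {p : ℕ → E × StrongDual 𝕜 E} (hp : Bi n p)
    (w0 : StrongDual 𝕜 E) :
    ∃ x : E × StrongDual 𝕜 E, x.2 x.1 = 1 ∧ (∀ j < n, x.2 ((p j).1) = 0 ∧ (p j).2 x.1 = 0) ∧
      w0 ∈ span 𝕜 (insert x.2 ((fun j => (p j).2) '' Iio n)) := by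
  obtain ⟨w, hw, hw0⟩ : ∃ w : StrongDual 𝕜 E, w ∉ span 𝕜 ((fun j => (p j).2) '' Iio n) ∧
      (w = w0 ∨ w0 ∈ span 𝕜 ((fun j => (p j).2) '' Iio n)) := by
    by_cases h : w0 ∈ span 𝕜 ((fun j => (p j).2) '' Iio n)
    · obtain ⟨w, hw⟩ := exists_notMem_right hinf hp
      exact ⟨w, hw, Or.inr h⟩
    · exact ⟨w0, h, Or.inl rfl⟩
  set f0 := w - ∑ j ∈ Finset.range n, w (p j).1 • (p j).2 with hf0
  have h0 : f0 ≠ 0 := by
    intro h0
    apply hw
    rw [sub_eq_zero.1 h0]
    exact sum_mem_right p _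
  obtain ⟨v, hv⟩ : ∃ v : E, f0 v ≠ 0 := by
    by_contra h
    push Not at h
    exact h0 (ContinuousLinearMap.ext h)
  set v1 := (f0 v)⁻¹ • v with hv1
  have hv1' : f0 v1 = 1 := by
    rw [hv1, map_smul, smul_eq_mul, inv_mul_cancel₀ hv]
  refine ⟨(v1 - ∑ j ∈ Finset.range n, (p j).2 v1 • (p j).1, f0), ?_,
    fun j hj => ⟨res_apply hp w hj, apply_res hp v1 hj⟩, ?_⟩
  · show f0 (v1 - ∑ j ∈ Finset.range n, (p j).2 v1 • (p j).1) = 1
    rw [map_sub, map_sum, hv1', Finset.sum_eq_zero, sub_zero]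
    intro j hj
    rw [map_smul, res_apply hp w (Finset.mem_range.1 hj), smul_zero]
  · rcases hw0 with rfl | h
    · have h2 : w = f0 + ∑ j ∈ Finset.range n, w (p j).1 • (p j).2 := by rw [hf0]; abel
      rw [h2]
      refine add_mem (subset_span (mem_insert _ _)) ?_
      exact span_mono (subset_insert _ _) (sum_mem_right p _)
    · exact span_mono (subset_insert _ _) h

/-- the specification of the next pair -/
def Spec (u : ℕ → E) (w : ℕ → StrongDual 𝕜 E) (n : ℕ) (p : ℕ → E × StrongDual 𝕜 E)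
    (x : E × StrongDual 𝕜 E) : Prop :=
  x.2 x.1 = 1 ∧ (∀ j < n, x.2 ((p j).1) = 0 ∧ (p j).2 x.1 = 0) ∧
    (Even n → u (n / 2) ∈ span 𝕜 (insert x.1 ((fun j => (p j).1) '' Iio n))) ∧
    (¬ Even n → w (n / 2) ∈ span 𝕜 (insert x.2 ((fun j => (p j).2) '' Iio n)))

lemma exists_spec (hinf : ¬ FiniteDimensional 𝕜 E) (u : ℕ → E) (w : ℕ → StrongDual 𝕜 E) {n : ℕ}
    {p : ℕ → E × StrongDual 𝕜 E} (hp : Bi n p) : ∃ x, Spec u w n p x := by
  by_cases h : Even n
  · obtain ⟨x, h1, h2, h3⟩ := step_left hinf hp (u (n / 2))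
    exact ⟨x, h1, h2, fun _ => h3, fun h' => absurd h h'⟩
  · obtain ⟨x, h1, h2, h3⟩ := step_right hinf hp (w (n / 2))
    exact ⟨x, h1, h2, fun h' => absurd h' h, fun _ => h3⟩

open Classical in
/-- the next pair -/
noncomputable def next (u : ℕ → E) (w : ℕ → StrongDual 𝕜 E) (n : ℕ) (p : ℕ → E × StrongDual 𝕜 E) :
    E × StrongDual 𝕜 E :=
  if h : ∃ x, Spec u w n p x then h.choose else 0

/-- the sequence of pairs -/
noncomputable def sq (u : ℕ → E) (w : ℕ → StrongDual 𝕜 E) (n : ℕ) : E × StrongDual 𝕜 E :=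
  next u w n (fun j => if _h : j < n then sq u w j else 0)
termination_by n

lemma image_congr_sq {α : Type*} (g : E × StrongDual 𝕜 E → α) (q : ℕ → E × StrongDual 𝕜 E) (n : ℕ) :
    (fun j => g (if _h : j < n then q j else 0)) '' Iio n = (fun j => g (q j)) '' Iio n := by
  apply image_congr
  intro j hj
  simp only [dif_pos (mem_Iio.1 hj)]

lemma sq_spec (hinf : ¬ FiniteDimensional 𝕜 E) (u : ℕ → E) (w : ℕ → StrongDual 𝕜 E) (n : ℕ) :
    Bi n (sq u w) ∧ Spec u w n (sq u w) (sq u w n) := by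
  induction n using Nat.strong_induction_on with
  | _ n ih =>
    have hB : Bi n (sq u w) := by
      intro i hi j hj
      rcases lt_trichotomy i j with h | h | h
      · rw [if_neg h.ne]
        exact ((ih j hj).2.2.1 i h).2
      · subst h
        rw [if_pos rfl]
        exact (ih i hi).2.1
      · rw [if_neg h.ne']
        exact ((ih i hi).2.2.1 j h).1
    refine ⟨hB, ?_⟩
    obtain ⟨x, hx⟩ := exists_spec hinf u w hB
    have key : ∀ y, Spec u w n (fun j => if _h : j < n then sq u w j else 0) y ↔ Spec u w n (sq u w) y := by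
      intro y
      unfold Spec
      rw [image_congr_sq (fun z => z.1), image_congr_sq (fun z => z.2)]
      have h1 : (∀ j < n, y.2 (((fun j => if _h : j < n then sq u w j else 0) j).1) = 0 ∧
          ((fun j => if _h : j < n then sq u w j else 0) j).2 y.1 = 0) ↔
          ∀ j < n, y.2 ((sq u w j).1) = 0 ∧ (sq u w j).2 y.1 = 0 := by
        refine forall_congr' fun j => forall_congr' fun hj => ?_
        simp only [dif_pos hj]
      rw [h1]
    have hex : ∃ y, Spec u w n (fun j => if _h : j < n then sq u w j else 0) y := ⟨x, (key x).2 hx⟩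
    have h2 : sq u w n = hex.choose := by
      rw [sq]
      unfold next
      rw [dif_pos hex]
    rw [h2]
    exact (key _).1 hex.choose_spec

/-- **Markushevich.** -/
theorem exists_system (hinf : ¬ FiniteDimensional 𝕜 E) [SeparableSpace E] [SeparableSpace (StrongDual 𝕜 E)] :
    ∃ (e : ℕ → E) (f : ℕ → StrongDual 𝕜 E), (∀ i j, f i (e j) = if i = j then 1 else 0) ∧
      Dense (span 𝕜 (range e) : Set E) ∧ Dense (span 𝕜 (range f) : Set (StrongDual 𝕜 E)) := by
  set u := denseSeq E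
  set w := denseSeq (StrongDual 𝕜 E)
  refine ⟨fun n => (sq u w n).1, fun n => (sq u w n).2, ?_, ?_, ?_⟩
  · intro i j
    exact (sq_spec hinf u w (max i j + 1)).1 i (Nat.lt_succ_of_le (le_max_left _ _)) j
      (Nat.lt_succ_of_le (le_max_right _ _))
  · refine (denseRange_denseSeq E).mono ?_
    rintro _ ⟨n, rfl⟩
    have h := (sq_spec hinf u w (2 * n)).2.2.2.1 (even_two_mul n)
    rw [show 2 * n / 2 = n by omega] at h
    refine span_mono ?_ h
    rintro _ (rfl | ⟨j, _, rfl⟩)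
    · exact ⟨_, rfl⟩
    · exact ⟨j, rfl⟩
  · refine (denseRange_denseSeq (StrongDual 𝕜 E)).mono ?_
    rintro _ ⟨n, rfl⟩
    have h := (sq_spec hinf u w (2 * n + 1)).2.2.2.2 (by simp)
    rw [show (2 * n + 1) / 2 = n by omega] at h
    refine span_mono ?_ h
    rintro _ (rfl | ⟨j, _, rfl⟩)
    · exact ⟨_, rfl⟩
    · exact ⟨j, rfl⟩

end Pool.Agent.J4.H66.Mark
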