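import Mathlib

/-!
# Norming finite-dimensional subspaces by finitely many vectors of a total sequence
-/

set_option autoImplicit false

namespace Pool.Agent.J4.H66.Norming

open Set Submodule Filter

variable {𝕜 : Type*} [RCLike 𝕜]

lemma exists_norming {Y Z : Type*} [NormedAddCommGroup Y] [NormedSpace 𝕜 Y] [NormedAddCommGroup Z]
    [NormedSpace 𝕜 Z] (B : Y → Z → 𝕜) (hadd : ∀ y y' z, B (y - y') z = B y z - B y' z)
    (hsmul : ∀ (c : 𝕜) y z, B (c • y) z = c * B y z)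
    (hB : ∀ y z, ‖B y z‖ ≤ ‖y‖ * ‖z‖) (z : ℕ → Z)
    (hz : ∀ y, ∃ v ∈ span 𝕜 (range z), ‖v‖ ≤ 1 ∧ (3 / 4) * ‖y‖ ≤ ‖B y v‖)
    (U : Submodule 𝕜 Y) [FiniteDimensional 𝕜 U] :
    ∃ t : ℕ, ∀ u ∈ U, ∃ v ∈ span 𝕜 (z '' Iio t), ‖v‖ ≤ 1 ∧ (1 / 2) * ‖u‖ ≤ ‖B u v‖ := by
  have hfin : ∀ v ∈ span 𝕜 (range z), ∃ t : ℕ, v ∈ span 𝕜 (z '' Iio t) := by
    intro v hv
    induction hv using Submodule.span_induction with
    | mem x hx =>
      obtain ⟨j, rfl⟩ := hx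
      exact ⟨j + 1, subset_span ⟨j, Nat.lt_succ_self j, rfl⟩⟩
    | zero => exact ⟨0, zero_mem _⟩
    | add x y _ _ hx hy =>
      obtain ⟨a, ha⟩ := hx
      obtain ⟨b, hb⟩ := hy
      refine ⟨max a b, add_mem ?_ ?_⟩
      · exact span_mono (image_mono (Iio_subset_Iio (le_max_left _ _))) ha
      · exact span_mono (image_mono (Iio_subset_Iio (le_max_right _ _))) hb
    | smul c x _ hx =>
      obtain ⟨a, ha⟩ := hx
      exact ⟨a, smul_mem _ _ ha⟩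
  have : ProperSpace U := FiniteDimensional.proper 𝕜 U
  have hcomp : IsCompact (Metric.sphere (0 : U) 1) := isCompact_sphere _ _
  have key : ∃ t : ℕ, ∀ u ∈ Metric.sphere (0 : U) 1, ∃ v ∈ span 𝕜 (z '' Iio t), ‖v‖ ≤ 1 ∧
      1 / 2 ≤ ‖B u v‖ := by
    refine hcomp.induction_on (p := fun s => ∃ t : ℕ, ∀ u ∈ s, ∃ v ∈ span 𝕜 (z '' Iio t), ‖v‖ ≤ 1 ∧
      1 / 2 ≤ ‖B u v‖) ⟨0, fun u hu => absurd hu (notMem_empty u)⟩ ?_ ?_ ?_
    · rintro s t hst ⟨n, hn⟩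
      exact ⟨n, fun u hu => hn u (hst hu)⟩
    · rintro s t ⟨a, ha⟩ ⟨b, hb⟩
      refine ⟨max a b, ?_⟩
      rintro u (hu | hu)
      · obtain ⟨v, hv, h⟩ := ha u hu
        exact ⟨v, span_mono (image_mono (Iio_subset_Iio (le_max_left _ _))) hv, h⟩
      · obtain ⟨v, hv, h⟩ := hb u hu
        exact ⟨v, span_mono (image_mono (Iio_subset_Iio (le_max_right _ _))) hv, h⟩
    · intro u hu
      obtain ⟨v, hv, hv1, hv2⟩ := hz u
      obtain ⟨t, ht⟩ := hfin v hv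
      refine ⟨Metric.ball u (1 / 4), mem_nhdsWithin_of_mem_nhds (Metric.ball_mem_nhds _ (by norm_num)), t, ?_⟩
      intro u' hu'
      refine ⟨v, ht, hv1, ?_⟩
      have h1 : ‖(u : Y)‖ = 1 := by
        have := mem_sphere_zero_iff_norm.1 hu
        simpa using this
      have h2 : ‖(u : Y) - u'‖ < 1 / 4 := by
        have h3 := Metric.mem_ball.1 hu'
        rw [dist_comm, dist_eq_norm] at h3
        simpa using h3
      have h3 : B (u : Y) v = B ((u : Y) - u') v + B u' v := by rw [hadd]; ring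
      have h4 : ‖B ((u : Y) - u') v‖ ≤ 1 / 4 := by
        refine (hB _ _).trans ?_
        nlinarith [norm_nonneg ((u : Y) - u'), norm_nonneg v]
      have h5 := norm_add_le (B ((u : Y) - u') v) (B u' v)
      rw [← h3] at h5
      rw [h1] at hv2
      linarith
  obtain ⟨t, ht⟩ := key
  refine ⟨t, fun u hu => ?_⟩
  rcases eq_or_ne u 0 with rfl | h0
  · exact ⟨0, zero_mem _, by simp, by simp⟩
  · have hn : ‖u‖ ≠ 0 := norm_ne_zero_iff.2 h0
    have hmem : ((((‖u‖ : ℝ) : 𝕜)⁻¹) • (⟨u, hu⟩ : U)) ∈ Metric.sphere (0 : U) 1 := by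
      rw [mem_sphere_zero_iff_norm, norm_smul, norm_inv, RCLike.norm_ofReal, abs_norm]
      exact inv_mul_cancel₀ hn
    obtain ⟨v, hv, hv1, hv2⟩ := ht _ hmem
    refine ⟨v, hv, hv1, ?_⟩
    have h1 : B ((((((‖u‖ : ℝ) : 𝕜)⁻¹) • (⟨u, hu⟩ : U) : U)) : Y) v = (((‖u‖ : ℝ) : 𝕜)⁻¹) * B u v := hsmul _ _ _
    rw [h1, norm_mul, norm_inv, RCLike.norm_ofReal, abs_norm] at hv2
    rw [le_inv_mul_iff₀ (lt_of_le_of_ne (norm_nonneg u) (Ne.symm hn))] at hv2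
    linarith

end Pool.Agent.J4.H66.Norming
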