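import Pool.Agent.J4.H66.Strong

/-!
# Hahn-Banach for subspaces, and separability of a space with separable dual
-/

set_option autoImplicit false

namespace Pool.Agent.J4.H66.Sep

open Set Submodule TopologicalSpace

variable {𝕜 : Type*} [RCLike 𝕜]

lemma exists_sep {F : Type*} [NormedAddCommGroup F] [NormedSpace 𝕜 F] (S : Submodule 𝕜 F) {x : F}
    (hx : x ∉ closure (S : Set F)) : ∃ G : StrongDual 𝕜 F, (∀ y ∈ S, G y = 0) ∧ G x ≠ 0 := by
  have h1 : ‖(Submodule.Quotient.mk x : F ⧸ S)‖ ≠ 0 := by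
    intro h
    exact hx ((QuotientAddGroup.norm_mk_eq_zero_iff_mem_closure (S := S.toAddSubgroup)).1 h)
  obtain ⟨g, _, hg⟩ := exists_dual_vector 𝕜 (Submodule.Quotient.mk x : F ⧸ S) h1
  refine ⟨g.comp S.mkQL, fun y hy => ?_, ?_⟩
  · show g (Submodule.Quotient.mk y) = 0
    rw [(Submodule.Quotient.mk_eq_zero S).2 hy, map_zero]
  · show g (Submodule.Quotient.mk x) ≠ 0
    rw [hg]
    exact_mod_cast h1

lemma dense_of_forall {F : Type*} [NormedAddCommGroup F] [NormedSpace 𝕜 F] (S : Submodule 𝕜 F)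
    (h : ∀ G : StrongDual 𝕜 F, (∀ y ∈ S, G y = 0) → G = 0) : Dense (S : Set F) := by
  intro x
  by_contra hx
  obtain ⟨G, hG, hGx⟩ := exists_sep S hx
  rw [h G hG] at hGx
  exact hGx rfl

theorem separable_of_dual (𝕜 : Type*) [RCLike 𝕜] (E : Type*) [NormedAddCommGroup E] [NormedSpace 𝕜 E]
    [SeparableSpace (StrongDual 𝕜 E)] : SeparableSpace E := by
  set w := denseSeq (StrongDual 𝕜 E) with hw
  have hex : ∀ n, ∃ x : E, ‖x‖ ≤ 1 ∧ 1 / 2 * ‖w n‖ ≤ ‖w n x‖ := by
    intro n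
    rcases eq_or_ne (w n) 0 with h | h
    · exact ⟨0, by simp, by rw [h]; simp⟩
    · have h' : 0 < ‖w n‖ := norm_pos_iff.2 h
      obtain ⟨x, hx1, hx2⟩ := (w n).exists_lt_apply_of_lt_opNorm (r := 1 / 2 * ‖w n‖) (by linarith)
      exact ⟨x, hx1.le, hx2.le⟩
  choose x hx1 hx2 using hex
  have hd : Dense (span 𝕜 (range x) : Set E) := by
    apply dense_of_forall
    intro g hg
    by_contra hne
    have hpos : 0 < ‖g‖ := norm_pos_iff.2 hne
    obtain ⟨n, hn⟩ := (denseRange_denseSeq (StrongDual 𝕜 E)).exists_dist_lt g (ε := ‖g‖ / 4) (by linarith)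
    rw [← hw] at hn
    rw [dist_eq_norm] at hn
    have h1 : ‖w n (x n)‖ ≤ ‖g‖ / 4 := by
      have h2 : w n (x n) = - ((g - w n) (x n)) := by
        rw [sub_apply, hg (x n) (subset_span ⟨n, rfl⟩)]
        ring
      rw [h2, norm_neg]
      refine ((g - w n).le_opNorm _).trans ?_
      have := norm_nonneg (g - w n)
      have := hx1 n
      nlinarith [norm_nonneg (x n)]
    have h3 := hx2 n
    have h4 : ‖g‖ ≤ ‖g - w n‖ + ‖w n‖ := by
      have := norm_add_le (g - w n) (w n)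
      rwa [sub_add_cancel] at this
    linarith
  have hsep : IsSeparable (span 𝕜 (range x) : Set E) := ((countable_range x).isSeparable).span
  have h2 := hsep.closure
  rw [hd.closure_eq] at h2
  exact isSeparable_univ_iff.1 h2

end Pool.Agent.J4.H66.Sep
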