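import Mathlib

/-!
# The block matrix

`V τ i j = i ^ j` for `j < a` and `τ i ^ j` for `j ≥ a` (`i, j < N`). If `(V ζ)_i w_i = 0` for all `i` and `γ = Vᵀ w`, then
either the first `a` coordinates of `ζ` are small, or the last coordinates of `γ` are small.
-/

set_option autoImplicit false

namespace Pool.Agent.J4.H66.Vander

open Finset Matrix

variable {𝕜 : Type*} [RCLike 𝕜]

/-- the matrix of the block -/
def V (N a : ℕ) (τ : 𝕜) : Matrix (Fin N) (Fin N) 𝕜 := fun i j => ((i : ℕ) : 𝕜) ^ (j : ℕ) * (if (j : ℕ) < a then 1 else τ)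

lemma V_eq (N a : ℕ) (τ : 𝕜) : V N a τ = vandermonde (fun i : Fin N => ((i : ℕ) : 𝕜)) *
    diagonal (fun j : Fin N => if (j : ℕ) < a then (1 : 𝕜) else τ) := by
  ext i j
  rw [mul_diagonal]
  rfl

lemma det_V {N a : ℕ} {τ : 𝕜} (hτ : τ ≠ 0) : IsUnit (V N a τ).det := by
  rw [V_eq, det_mul, det_diagonal, isUnit_iff_ne_zero]
  refine mul_ne_zero (det_vandermonde_ne_zero_iff.2 ?_) (Finset.prod_ne_zero_iff.2 fun j _ => ?_)
  · intro i j h
    exact Fin.ext (Nat.cast_injective h)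
  · split_ifs
    · exact one_ne_zero
    · exact hτ

/-- the small matrices -/
def M (N a : ℕ) (σ : Fin a → Fin N) : Matrix (Fin a) (Fin a) 𝕜 := vandermonde fun i => (((σ i : Fin N) : ℕ) : 𝕜)

lemma det_M {N a : ℕ} {σ : Fin a → Fin N} (hσ : Function.Injective σ) : IsUnit (M (𝕜 := 𝕜) N a σ).det := by
  rw [isUnit_iff_ne_zero]
  refine det_vandermonde_ne_zero_iff.2 ?_
  intro i j h
  exact hσ (Fin.ext (Nat.cast_injective h))

/-- the constant -/
noncomputable def K1 (𝕜 : Type*) [RCLike 𝕜] (N a : ℕ) : ℝ := ∑ σ : Fin a → Fin N, ∑ i, ∑ j, ‖(M (𝕜 := 𝕜) N a σ)⁻¹ i j‖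

lemma entry_le {N a : ℕ} (σ : Fin a → Fin N) (i j : Fin a) : ‖(M (𝕜 := 𝕜) N a σ)⁻¹ i j‖ ≤ K1 𝕜 N a := by
  unfold K1
  refine le_trans ?_ (single_le_sum (f := fun σ : Fin a → Fin N => ∑ i, ∑ j, ‖(M (𝕜 := 𝕜) N a σ)⁻¹ i j‖)
    (fun _ _ => sum_nonneg fun _ _ => sum_nonneg fun _ _ => norm_nonneg _) (mem_univ σ))
  refine le_trans ?_ (single_le_sum (f := fun i => ∑ j, ‖(M (𝕜 := 𝕜) N a σ)⁻¹ i j‖)
    (fun _ _ => sum_nonneg fun _ _ => norm_nonneg _) (mem_univ i))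
  exact single_le_sum (f := fun j => ‖(M (𝕜 := 𝕜) N a σ)⁻¹ i j‖) (fun _ _ => norm_nonneg _) (mem_univ j)

lemma K1_nonneg (N a : ℕ) : 0 ≤ K1 𝕜 N a :=
  sum_nonneg fun _ _ => sum_nonneg fun _ _ => sum_nonneg fun _ _ => norm_nonneg _

/-- the constant of the block lemma -/
noncomputable def K (𝕜 : Type*) [RCLike 𝕜] (N a : ℕ) : ℝ := K1 𝕜 N a * (a * (N : ℝ) ^ N)

lemma K_nonneg (N a : ℕ) : 0 ≤ K 𝕜 N a := mul_nonneg (K1_nonneg _ _) (by positivity)

lemma norm_pow_le {N : ℕ} (i j : Fin N) : ‖((i : ℕ) : 𝕜) ^ (j : ℕ)‖ ≤ (N : ℝ) ^ N := by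
  rw [norm_pow, RCLike.norm_natCast]
  have hi : ((i : ℕ) : ℝ) ≤ N := by exact_mod_cast i.2.le
  have hN : (1 : ℝ) ≤ N := by exact_mod_cast (Nat.lt_of_le_of_lt (Nat.zero_le _) i.2 : 0 < N)
  exact (pow_le_pow_left₀ (by positivity) hi _).trans (pow_le_pow_right₀ hN j.2.le)

theorem block {N a : ℕ} (ha : a ≤ N) {τ : 𝕜} (ζ w γ : Fin N → 𝕜)
    (hγ : ∀ j, γ j = ∑ i, V N a τ i j * w i) (h : ∀ i, (∑ j, V N a τ i j * ζ j) * w i = 0) :
    (∀ j : Fin N, (j : ℕ) < a → ‖ζ j‖ ≤ K 𝕜 N a * ‖τ‖ * ∑ l, ‖ζ l‖) ∨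
      ∀ l : Fin N, a ≤ (l : ℕ) → ‖γ l‖ ≤ K 𝕜 N a * ‖τ‖ * ∑ j, ‖γ j‖ := by
  classical
  set I : Finset (Fin N) := univ.filter fun i => w i ≠ 0 with hI
  -- enlarge or shrink `I` to a set with `a` elements
  obtain ⟨I', hcard, hII⟩ : ∃ I' : Finset (Fin N), I'.card = a ∧ (I' ⊆ I ∨ I ⊆ I') := by
    rcases le_total a I.card with h1 | h1
    · obtain ⟨I', h2, h3⟩ := exists_subset_card_eq h1
      exact ⟨I', h3, Or.inl h2⟩
    · obtain ⟨I', h2, h3⟩ := exists_superset_card_eq h1 (by simpa using ha)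
      exact ⟨I', h3, Or.inr h2⟩
  let σ : Fin a ↪o Fin N := I'.orderEmbOfFin hcard
  have hσ : Function.Injective σ := σ.injective
  have hσmem : ∀ i, σ i ∈ I' := fun i => I'.orderEmbOfFin_mem hcard i
  have hσsurj : ∀ n ∈ I', ∃ i, σ i = n := by
    intro n hn
    have h1 := I'.range_orderEmbOfFin hcard
    have h2 : n ∈ Set.range (I'.orderEmbOfFin hcard) := by rw [h1]; exact hn
    exact h2
  have hdet := det_M (𝕜 := 𝕜) hσ
  -- the embedding of `Fin a`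
  let c : Fin a → Fin N := Fin.castLE ha
  have hc : ∀ j : Fin N, (j : ℕ) < a → ∃ j', c j' = j := fun j hj => ⟨⟨j, hj⟩, rfl⟩
  have hcinj : Function.Injective c := Fin.castLE_injective ha
  have hVlow : ∀ (i : Fin N) (j : Fin a), V N a τ i (c j) = ((i : ℕ) : 𝕜) ^ (j : ℕ) := by
    intro i j
    have : ((c j : Fin N) : ℕ) < a := j.2
    simp only [V, if_pos this, mul_one]
    rfl
  have hVhigh : ∀ (i l : Fin N), a ≤ (l : ℕ) → V N a τ i l = ((i : ℕ) : 𝕜) ^ (l : ℕ) * τ := by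
    intro i l hl
    simp only [V, if_neg (not_lt.2 hl)]
  rcases hII with hsub | hsup
  · left
    -- for `i ∈ I'` the coordinate `(V ζ)_i` vanishes
    have h0 : ∀ i : Fin a, ∑ j, V N a τ (σ i) j * ζ j = 0 := by
      intro i
      have h1 := hsub (hσmem i)
      rw [hI, mem_filter] at h1
      exact (mul_eq_zero.1 (h (σ i))).resolve_right h1.2
    set ξ : Fin a → 𝕜 := fun j => ζ (c j) with hξ
    have h1 : ∀ i : Fin a, ‖(M (𝕜 := 𝕜) N a σ *ᵥ ξ) i‖ ≤ ‖τ‖ * ((N : ℝ) ^ N * ∑ l, ‖ζ l‖) := by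
      intro i
      have h2 : (M (𝕜 := 𝕜) N a σ *ᵥ ξ) i = ∑ j ∈ univ.filter (fun j : Fin N => (j : ℕ) < a), V N a τ (σ i) j * ζ j := by
        have h3 : univ.filter (fun j : Fin N => (j : ℕ) < a) = univ.image c := by
          ext j
          simp only [mem_filter, mem_univ, true_and, mem_image]
          constructor
          · exact fun hj => hc j hj
          · rintro ⟨j', rfl⟩
            exact j'.2
        rw [h3, sum_image fun _ _ _ _ h => hcinj h]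
        simp only [mulVec, dotProduct]
        refine sum_congr rfl fun j _ => ?_
        rw [hVlow]
        rfl
      have h3 : (M (𝕜 := 𝕜) N a σ *ᵥ ξ) i =
          - ∑ j ∈ univ.filter (fun j : Fin N => ¬ (j : ℕ) < a), V N a τ (σ i) j * ζ j := by
        rw [h2, eq_neg_iff_add_eq_zero, sum_filter_add_sum_filter_not]
        exact h0 i
      rw [h3, norm_neg]
      refine (norm_sum_le _ _).trans ?_
      rw [mul_sum, mul_sum]
      refine le_trans (sum_le_sum (g := fun j => ‖τ‖ * ((N : ℝ) ^ N * ‖ζ j‖)) ?_)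
        (sum_le_sum_of_subset_of_nonneg (filter_subset _ _) fun _ _ _ => by positivity)
      intro j hj
      rw [mem_filter] at hj
      rw [hVhigh _ _ (not_lt.1 hj.2), norm_mul, norm_mul]
      have h4 := norm_pow_le (𝕜 := 𝕜) (σ i) j
      have : ‖((σ i : ℕ) : 𝕜) ^ (j : ℕ)‖ * ‖τ‖ * ‖ζ j‖ = ‖τ‖ * (‖((σ i : ℕ) : 𝕜) ^ (j : ℕ)‖ * ‖ζ j‖) := by ring
      rw [this]
      gcongr
    intro j hj
    obtain ⟨j', rfl⟩ := hc j hj
    have h2 : ξ = (M (𝕜 := 𝕜) N a σ)⁻¹ *ᵥ (M (𝕜 := 𝕜) N a σ *ᵥ ξ) := by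
      rw [mulVec_mulVec, nonsing_inv_mul _ hdet, one_mulVec]
    have h3 : ζ (c j') = ∑ i, (M (𝕜 := 𝕜) N a σ)⁻¹ j' i * (M (𝕜 := 𝕜) N a σ *ᵥ ξ) i := congrFun h2 j'
    rw [h3]
    refine (norm_sum_le _ _).trans ?_
    refine (sum_le_sum (g := fun _ => K1 𝕜 N a * (‖τ‖ * ((N : ℝ) ^ N * ∑ l, ‖ζ l‖))) fun i _ => ?_).trans ?_
    · rw [norm_mul]
      exact mul_le_mul (entry_le _ _ _) (h1 i) (norm_nonneg _) (K1_nonneg _ _)
    · rw [sum_const, card_univ, Fintype.card_fin, nsmul_eq_mul]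
      unfold K
      apply le_of_eq
      ring
  · right
    -- `w` vanishes off `I'`
    have hw : ∀ n, n ∉ I' → w n = 0 := by
      intro n hn
      by_contra h1
      exact hn (hsup (by rw [hI, mem_filter]; exact ⟨mem_univ _, h1⟩))
    have hsum : ∀ j, γ j = ∑ i : Fin a, V N a τ (σ i) j * w (σ i) := by
      intro j
      rw [hγ j]
      have h1 : I' = univ.image σ := by
        ext n
        simp only [mem_image, mem_univ, true_and]
        exact ⟨fun hn => hσsurj n hn, by rintro ⟨i, rfl⟩; exact hσmem i⟩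
      rw [← sum_image (f := fun n => V N a τ n j * w n) (s := univ) (g := σ) fun _ _ _ _ h => hσ h, ← h1]
      symm
      refine sum_subset (subset_univ _) fun n _ hn => ?_
      rw [hw n hn, mul_zero]
    set ω : Fin a → 𝕜 := fun i => w (σ i) with hω
    have h1 : (fun j : Fin a => γ (c j)) = (M (𝕜 := 𝕜) N a σ)ᵀ *ᵥ ω := by
      funext j
      rw [hsum]
      simp only [mulVec, dotProduct, transpose_apply]
      refine sum_congr rfl fun i _ => ?_
      rw [hVlow]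
      rfl
    have h2 : ω = ((M (𝕜 := 𝕜) N a σ)⁻¹)ᵀ *ᵥ (fun j : Fin a => γ (c j)) := by
      rw [h1, mulVec_mulVec, ← transpose_mul, mul_nonsing_inv _ hdet, transpose_one, one_mulVec]
    have h3 : ∀ i, ‖ω i‖ ≤ K1 𝕜 N a * ∑ j, ‖γ j‖ := by
      intro i
      have h4 : ω i = ∑ j, (M (𝕜 := 𝕜) N a σ)⁻¹ j i * γ (c j) := congrFun h2 i
      rw [h4]
      refine (norm_sum_le _ _).trans ?_
      have h5 : ∑ j : Fin a, ‖γ (c j)‖ ≤ ∑ j, ‖γ j‖ := by
        rw [← sum_image (f := fun j => ‖γ j‖) (s := univ) (g := c) fun _ _ _ _ h => hcinj h]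
        exact sum_le_sum_of_subset_of_nonneg (subset_univ _) fun _ _ _ => norm_nonneg _
      refine le_trans ?_ (mul_le_mul_of_nonneg_left h5 (K1_nonneg N a))
      rw [mul_sum]
      refine sum_le_sum fun j _ => ?_
      rw [norm_mul]
      exact mul_le_mul_of_nonneg_right (entry_le _ _ _) (norm_nonneg _)
    intro l hl
    rw [hsum l]
    refine (norm_sum_le _ _).trans ?_
    refine (sum_le_sum (g := fun _ => (N : ℝ) ^ N * ‖τ‖ * (K1 𝕜 N a * ∑ j, ‖γ j‖)) fun i _ => ?_).trans ?_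
    · rw [norm_mul, hVhigh _ _ hl, norm_mul]
      refine mul_le_mul (mul_le_mul_of_nonneg_right (norm_pow_le _ _) (norm_nonneg _)) (h3 i) (norm_nonneg _)
        (by positivity)
    · rw [sum_const, card_univ, Fintype.card_fin, nsmul_eq_mul]
      unfold K
      apply le_of_eq
      ring

end Pool.Agent.J4.H66.Vander
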