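import Pool.Agent.J4.H66.Mark
import Pool.Agent.J4.H66.Norming
import Pool.Agent.J4.H66.Vander

/-!
# A block perturbation which is strong

Let `(e_n, f_n)` be a biorthogonal system in `E × E*` with dense spans. We cut `ω` into blocks and change the basis in each
block, by the matrices of `Vander`, so that the new system `(x_n, g_n)` is strong in the dual: if `g` is in `E*`, `G` in `E**` and
`g (x_n) G (g_n) = 0` for all `n`, then `G g = 0`.
-/

set_option autoImplicit false

namespace Pool.Agent.J4.H66.Strong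

open Set Submodule TopologicalSpace Filter
open Pool.Agent.J4.H66.Vander

variable {𝕜 : Type*} [RCLike 𝕜] {E : Type*} [NormedAddCommGroup E] [NormedSpace 𝕜 E]

/-- a biorthogonal system with dense spans -/
structure Sys (e : ℕ → E) (f : ℕ → StrongDual 𝕜 E) : Prop where
  bi : ∀ i j, f i (e j) = if i = j then 1 else 0
  dense_e : Dense (span 𝕜 (range e) : Set E)
  dense_f : Dense (span 𝕜 (range f) : Set (StrongDual 𝕜 E))

variable {e : ℕ → E} {f : ℕ → StrongDual 𝕜 E}

lemma apply_zero (h : Sys e f) {g : StrongDual 𝕜 E} {s : ℕ} (hg : g ∈ span 𝕜 (f '' Iio s)) {k : ℕ} (hk : s ≤ k) :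
    g (e k) = 0 := by
  induction hg using Submodule.span_induction with
  | mem x hx =>
    obtain ⟨j, hj, rfl⟩ := hx
    rw [h.bi, if_neg]
    have := mem_Iio.1 hj
    omega
  | zero => rfl
  | add x y _ _ hx hy => rw [add_apply, hx, hy, add_zero]
  | smul c x _ hx => rw [smul_apply, hx, smul_zero]

lemma eq_sum (h : Sys e f) {g : StrongDual 𝕜 E} {s : ℕ} (hg : g ∈ span 𝕜 (f '' Iio s)) :
    g = ∑ k ∈ Finset.range s, g (e k) • f k := by
  induction hg using Submodule.span_induction with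
  | mem x hx =>
    obtain ⟨j, hj, rfl⟩ := hx
    rw [Finset.sum_eq_single_of_mem j (Finset.mem_range.2 hj)]
    · rw [h.bi, if_pos rfl, one_smul]
    · intro i _ hi
      rw [h.bi, if_neg (Ne.symm hi)]
      exact zero_smul 𝕜 (f i)
  | zero =>
    symm
    exact Finset.sum_eq_zero fun k _ => zero_smul 𝕜 (f k)
  | add x y _ _ hx hy =>
    conv_lhs => rw [hx, hy]
    rw [← Finset.sum_add_distrib]
    refine Finset.sum_congr rfl fun k _ => ?_
    rw [add_apply]
    exact (add_smul _ _ _).symm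
  | smul c x _ hx =>
    conv_lhs => rw [hx]
    rw [Finset.smul_sum]
    refine Finset.sum_congr rfl fun k _ => ?_
    rw [smul_apply, smul_eq_mul]
    exact smul_smul _ _ _

lemma norming_f (h : Sys e f) (g : StrongDual 𝕜 E) :
    ∃ v ∈ span 𝕜 (range e), ‖v‖ ≤ 1 ∧ (3 / 4) * ‖g‖ ≤ ‖g v‖ := by
  rcases eq_or_ne g 0 with rfl | hg
  · exact ⟨0, zero_mem _, by simp, by simp⟩
  · have hg' : 0 < ‖g‖ := norm_pos_iff.2 hg
    obtain ⟨x, hx1, hx2⟩ := g.exists_lt_apply_of_lt_opNorm (r := 3 / 4 * ‖g‖) (by linarith)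
    have hO : IsOpen {v : E | ‖v‖ < 1 ∧ 3 / 4 * ‖g‖ < ‖g v‖} :=
      (isOpen_lt continuous_norm continuous_const).inter
        (isOpen_lt continuous_const (g.continuous.norm))
    obtain ⟨v, hv, hv'⟩ := h.dense_e.exists_mem_open hO ⟨x, hx1, hx2⟩
    exact ⟨v, hv, hv'.1.le, hv'.2.le⟩

lemma norming_e (h : Sys e f) (x : E) :
    ∃ g ∈ span 𝕜 (range f), ‖g‖ ≤ 1 ∧ (3 / 4) * ‖x‖ ≤ ‖g x‖ := by
  rcases eq_or_ne x 0 with rfl | hx
  · exact ⟨0, zero_mem _, by simp, by simp⟩
  · have hx' : 0 < ‖x‖ := norm_pos_iff.2 hx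
    obtain ⟨g0, hg1, hg2⟩ := exists_dual_vector 𝕜 x hx'.ne'
    have hO : IsOpen {g : StrongDual 𝕜 E | ‖g‖ < 1 ∧ 3 / 4 * ‖x‖ < ‖g x‖} :=
      (isOpen_lt continuous_norm continuous_const).inter
        (isOpen_lt continuous_const ((ContinuousLinearMap.apply 𝕜 𝕜 x).continuous.norm))
    have hne : ((7 / 8 : ℝ) : 𝕜) • g0 ∈ {g : StrongDual 𝕜 E | ‖g‖ < 1 ∧ 3 / 4 * ‖x‖ < ‖g x‖} := by
      constructor
      · rw [norm_smul, RCLike.norm_ofReal, hg1, abs_of_pos (by norm_num)]
        norm_num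
      · rw [smul_apply, hg2, smul_eq_mul, norm_mul, RCLike.norm_ofReal, RCLike.norm_ofReal, abs_norm,
          abs_of_pos (by norm_num)]
        nlinarith
    obtain ⟨v, hv, hv'⟩ := h.dense_f.exists_mem_open hO ⟨_, hne⟩
    exact ⟨v, hv, hv'.1.le, hv'.2.le⟩

lemma exists_q (h : Sys e f) (s : ℕ) : ∃ q, s < q ∧ ∀ u ∈ span 𝕜 (f '' Iio s), ∀ w : StrongDual 𝕜 E,
    (∀ k < q, w (e k) = 0) → ‖u‖ ≤ 2 * ‖u - w‖ := by
  have : FiniteDimensional 𝕜 (span 𝕜 (f '' Iio s)) :=
    FiniteDimensional.span_of_finite 𝕜 ((finite_Iio s).image _)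
  obtain ⟨t, ht⟩ := Norming.exists_norming (𝕜 := 𝕜) (fun (g : StrongDual 𝕜 E) (x : E) => g x)
    (fun y y' z => by rw [sub_apply]) (fun c y z => by rw [smul_apply, smul_eq_mul])
    (fun y z => y.le_opNorm z) e (norming_f h) (span 𝕜 (f '' Iio s))
  refine ⟨max t (s + 1), by omega, fun u hu w hw => ?_⟩
  obtain ⟨v, hv, hv1, hv2⟩ := ht u hu
  have hwv : w v = 0 := by
    have h1 : span 𝕜 (e '' Iio t) ≤ LinearMap.ker (w : E →ₗ[𝕜] 𝕜) := by
      rw [span_le]
      rintro _ ⟨j, hj, rfl⟩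
      exact hw j (lt_of_lt_of_le (mem_Iio.1 hj) (le_max_left _ _))
    exact h1 hv
  have h1 : ‖u v‖ ≤ ‖u - w‖ := by
    have h2 : u v = (u - w) v := by rw [sub_apply, hwv, sub_zero]
    rw [h2]
    refine ((u - w).le_opNorm v).trans ?_
    exact mul_le_of_le_one_right (norm_nonneg _) hv1
  linarith

lemma exists_t (h : Sys e f) (q : ℕ) : ∃ t, q < t ∧ ∀ x ∈ span 𝕜 (e '' Iio q),
    ∃ z ∈ span 𝕜 (f '' Iio t), ‖z‖ ≤ 1 ∧ (1 / 2) * ‖x‖ ≤ ‖z x‖ := by
  have : FiniteDimensional 𝕜 (span 𝕜 (e '' Iio q)) :=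
    FiniteDimensional.span_of_finite 𝕜 ((finite_Iio q).image _)
  obtain ⟨t, ht⟩ := Norming.exists_norming (𝕜 := 𝕜) (fun (x : E) (g : StrongDual 𝕜 E) => g x)
    (fun y y' z => by rw [map_sub]) (fun c y z => by rw [map_smul, smul_eq_mul])
    (fun y z => by rw [mul_comm]; exact z.le_opNorm y) f (norming_e h) (span 𝕜 (e '' Iio q))
  refine ⟨max t (q + 1), by omega, fun x hx => ?_⟩
  obtain ⟨v, hv, hv'⟩ := ht x hx
  exact ⟨v, span_mono (image_mono (Iio_subset_Iio (le_max_left _ _))) hv, hv'⟩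

/-- the size of the first `t` vectors and functionals -/
noncomputable def size (e : ℕ → E) (f : ℕ → StrongDual 𝕜 E) (t : ℕ) : ℝ := ∑ k ∈ Finset.range t, (‖e k‖ + ‖f k‖)

lemma size_nonneg (e : ℕ → E) (f : ℕ → StrongDual 𝕜 E) (t : ℕ) : 0 ≤ size e f t :=
  Finset.sum_nonneg fun _ _ => by positivity

lemma sum_e_le (e : ℕ → E) (f : ℕ → StrongDual 𝕜 E) {s t : ℕ} : ∑ k ∈ Finset.Ico s t, ‖e k‖ ≤ size e f t := by
  refine (Finset.sum_le_sum_of_subset_of_nonneg (t := Finset.range t) ?_ fun _ _ _ => norm_nonneg _).trans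
    (Finset.sum_le_sum fun k _ => ?_)
  · intro k hk
    rw [Finset.mem_Ico] at hk
    exact Finset.mem_range.2 hk.2
  · have := norm_nonneg (f k)
    linarith

lemma sum_f_le (e : ℕ → E) (f : ℕ → StrongDual 𝕜 E) {s t : ℕ} : ∑ k ∈ Finset.Ico s t, ‖f k‖ ≤ size e f t := by
  refine (Finset.sum_le_sum_of_subset_of_nonneg (t := Finset.range t) ?_ fun _ _ _ => norm_nonneg _).trans
    (Finset.sum_le_sum fun k _ => ?_)
  · intro k hk
    rw [Finset.mem_Ico] at hk
    exact Finset.mem_range.2 hk.2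
  · have := norm_nonneg (e k)
    linarith

lemma fin_sum {M : Type*} [AddCommMonoid M] (F : ℕ → M) (s t : ℕ) :
    ∑ j : Fin (t - s), F (s + j) = ∑ k ∈ Finset.Ico s t, F k := by
  rw [Finset.sum_Ico_eq_sum_range, Finset.sum_range]

/-- The main estimate in one block. -/
lemma block_bound (h : Sys e f) {s q t : ℕ} (hsq : s < q) (hqt : q < t)
    (P1 : ∀ u ∈ span 𝕜 (f '' Iio s), ∀ w : StrongDual 𝕜 E, (∀ k < q, w (e k) = 0) → ‖u‖ ≤ 2 * ‖u - w‖)
    (P2 : ∀ x ∈ span 𝕜 (e '' Iio q), ∃ z ∈ span 𝕜 (f '' Iio t), ‖z‖ ≤ 1 ∧ (1 / 2) * ‖x‖ ≤ ‖z x‖)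
    {τ : 𝕜} (hτ : τ ≠ 0) {δ : ℝ} (hδ1 : δ ≤ 1)
    (hδ : K 𝕜 (t - s) (q - s) * ‖τ‖ * (size e f t * size e f t) ≤ δ)
    (g : StrongDual 𝕜 E) (G : StrongDual 𝕜 (StrongDual 𝕜 E)) {z : StrongDual 𝕜 E} (hz : z ∈ span 𝕜 (f '' Iio s))
    (h0 : ∑ k ∈ Finset.range s, g (e k) * G (f k) = 0)
    (hi : ∀ i : Fin (t - s), (∑ j, V (t - s) (q - s) τ i j * g (e (s + j))) *
      (∑ j, (V (t - s) (q - s) τ)⁻¹ j i * G (f (s + j))) = 0) :
    ∑ k ∈ Finset.range t, g (e k) * G (f k) = 0 ∧ ‖G g‖ ≤ ‖G‖ * (5 * ‖g - z‖ + 2 * δ * ‖g‖) := by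
  set N := t - s with hN
  set a := q - s with ha
  set C := size e f t with hC
  have hC0 : 0 ≤ C := size_nonneg _ _ _
  have hG0 := norm_nonneg G
  have hg0 := norm_nonneg g
  have hgz0 := norm_nonneg (g - z)
  have hK0 : 0 ≤ K 𝕜 N a * ‖τ‖ := mul_nonneg (K_nonneg _ _) (norm_nonneg _)
  have hδ0 : 0 ≤ δ := le_trans (mul_nonneg hK0 (mul_nonneg hC0 hC0)) hδ
  set w : Fin N → 𝕜 := fun i => ∑ j, (V N a τ)⁻¹ j i * G (f (s + j)) with hw
  have hγ : ∀ j : Fin N, G (f (s + j)) = ∑ i, V N a τ i j * w i := by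
    intro j
    have h1 : ∀ l : Fin N, ∑ i, (V N a τ)⁻¹ l i * V N a τ i j = if l = j then 1 else 0 := by
      intro l
      have h2 := congrFun (congrFun (Matrix.nonsing_inv_mul (V N a τ) (det_V hτ)) l) j
      rw [Matrix.mul_apply, Matrix.one_apply] at h2
      exact h2
    symm
    calc ∑ i, V N a τ i j * w i = ∑ i, ∑ l, V N a τ i j * ((V N a τ)⁻¹ l i * G (f (s + l))) := by
          refine Finset.sum_congr rfl fun i _ => ?_
          rw [hw, Finset.mul_sum]
      _ = ∑ l, ∑ i, V N a τ i j * ((V N a τ)⁻¹ l i * G (f (s + l))) := Finset.sum_comm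
      _ = ∑ l, (∑ i, (V N a τ)⁻¹ l i * V N a τ i j) * G (f (s + l)) := by
          refine Finset.sum_congr rfl fun l _ => ?_
          rw [Finset.sum_mul]
          refine Finset.sum_congr rfl fun i _ => ?_
          ring
      _ = ∑ l, if l = j then G (f (s + l)) else 0 := by
          refine Finset.sum_congr rfl fun l _ => ?_
          rw [h1]
          split_ifs <;> simp
      _ = G (f (s + j)) := by simp
  -- the sum over the block vanishes
  have hblock : ∑ k ∈ Finset.Ico s t, g (e k) * G (f k) = 0 := by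
    rw [← fin_sum]
    calc ∑ j : Fin N, g (e (s + j)) * G (f (s + j)) = ∑ j : Fin N, ∑ i, g (e (s + j)) * (V N a τ i j * w i) := by
          refine Finset.sum_congr rfl fun j _ => ?_
          rw [hγ j, Finset.mul_sum]
      _ = ∑ i, ∑ j : Fin N, g (e (s + j)) * (V N a τ i j * w i) := Finset.sum_comm
      _ = ∑ i, (∑ j, V N a τ i j * g (e (s + j))) * w i := by
          refine Finset.sum_congr rfl fun i _ => ?_
          rw [Finset.sum_mul]
          refine Finset.sum_congr rfl fun j _ => ?_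
          ring
      _ = 0 := Finset.sum_eq_zero fun i _ => hi i
  have htot : ∑ k ∈ Finset.range t, g (e k) * G (f k) = 0 := by
    rw [← Finset.sum_range_add_sum_Ico _ (hsq.le.trans hqt.le), h0, hblock, add_zero]
  refine ⟨htot, ?_⟩
  have hζs : ∑ l : Fin N, ‖g (e (s + l))‖ ≤ ‖g‖ * C := by
    rw [fin_sum (fun k => ‖g (e k)‖)]
    refine (Finset.sum_le_sum fun k _ => g.le_opNorm (e k)).trans ?_
    rw [← Finset.mul_sum]
    exact mul_le_mul_of_nonneg_left (sum_e_le e f) hg0
  have hγs : ∑ l : Fin N, ‖G (f (s + l))‖ ≤ ‖G‖ * C := by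
    rw [fin_sum (fun k => ‖G (f k)‖)]
    refine (Finset.sum_le_sum fun k _ => G.le_opNorm (f k)).trans ?_
    rw [← Finset.mul_sum]
    exact mul_le_mul_of_nonneg_left (sum_f_le e f) hG0
  rcases Vander.block (a := a) (τ := τ) (by omega) (fun j : Fin N => g (e (s + j))) w
    (fun j : Fin N => G (f (s + j))) hγ hi with hc | hc
  · -- the coordinates of `g` in the first part of the block are small
    have h1 : ∀ k ∈ Finset.Ico s q, ‖g (e k)‖ ≤ K 𝕜 N a * ‖τ‖ * (‖g‖ * C) := by
      intro k hk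
      rw [Finset.mem_Ico] at hk
      have h2 := hc ⟨k - s, by omega⟩ (by simp only; omega)
      simp only [show s + (k - s) = k by omega] at h2
      exact h2.trans (mul_le_mul_of_nonneg_left hζs hK0)
    set PA : StrongDual 𝕜 E := ∑ k ∈ Finset.Ico s q, g (e k) • f k with hPA
    set PS : StrongDual 𝕜 E := ∑ k ∈ Finset.range s, g (e k) • f k with hPS
    have hPAn : ‖PA‖ ≤ δ * ‖g‖ := by
      refine (norm_sum_le _ _).trans ?_
      have h2 : ∀ k ∈ Finset.Ico s q, ‖g (e k) • f k‖ ≤ K 𝕜 N a * ‖τ‖ * (‖g‖ * C) * ‖f k‖ := by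
        intro k hk
        refine (norm_smul_le (g (e k)) (f k)).trans ?_
        exact mul_le_mul_of_nonneg_right (h1 k hk) (norm_nonneg _)
      refine (Finset.sum_le_sum h2).trans ?_
      rw [← Finset.mul_sum]
      have h3 : ∑ k ∈ Finset.Ico s q, ‖f k‖ ≤ C := by
        refine le_trans ?_ (sum_f_le e f (s := s) (t := t))
        refine Finset.sum_le_sum_of_subset_of_nonneg (Finset.Ico_subset_Ico_right hqt.le) fun _ _ _ => norm_nonneg _
      calc K 𝕜 N a * ‖τ‖ * (‖g‖ * C) * ∑ k ∈ Finset.Ico s q, ‖f k‖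
          ≤ K 𝕜 N a * ‖τ‖ * (‖g‖ * C) * C := mul_le_mul_of_nonneg_left h3 (by positivity)
        _ = (K 𝕜 N a * ‖τ‖ * (C * C)) * ‖g‖ := by ring
        _ ≤ δ * ‖g‖ := mul_le_mul_of_nonneg_right hδ hg0
    have hPSm : PS ∈ span 𝕜 (f '' Iio s) :=
      sum_mem fun k hk => smul_mem _ _ (subset_span ⟨k, Finset.mem_range.1 hk, rfl⟩)
    have hPSe : ∀ k, PS (e k) = if k < s then g (e k) else 0 := by
      intro k
      rw [hPS, sum_apply]
      have h2 : ∀ j ∈ Finset.range s, (g (e j) • f j) (e k) = if j = k then g (e k) else 0 := by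
        intro j _
        rw [smul_apply, h.bi]
        split_ifs with h3
        · rw [h3, smul_eq_mul, mul_one]
        · rw [smul_eq_mul, mul_zero]
      rw [Finset.sum_congr rfl h2, Finset.sum_ite_eq' ]
      simp only [Finset.mem_range]
    have hPAe : ∀ k, PA (e k) = if s ≤ k ∧ k < q then g (e k) else 0 := by
      intro k
      rw [hPA, sum_apply]
      have h2 : ∀ j ∈ Finset.Ico s q, (g (e j) • f j) (e k) = if j = k then g (e k) else 0 := by
        intro j _
        rw [smul_apply, h.bi]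
        split_ifs with h3
        · rw [h3, smul_eq_mul, mul_one]
        · rw [smul_eq_mul, mul_zero]
      rw [Finset.sum_congr rfl h2, Finset.sum_ite_eq' ]
      simp only [Finset.mem_Ico]
    have hGPS : G PS = 0 := by
      rw [hPS, map_sum]
      have h2 : ∀ k ∈ Finset.range s, G (g (e k) • f k) = g (e k) * G (f k) := fun k _ => map_smul G _ _
      rw [Finset.sum_congr rfl h2, h0]
    have hu := P1 (z - PS) (sub_mem hz hPSm) (g - PA - PS) (by
      intro k hk
      rw [sub_apply, sub_apply, hPAe, hPSe]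
      by_cases h2 : k < s
      · rw [if_pos h2, if_neg (by omega)]
        ring
      · rw [if_neg h2, if_pos (by omega)]
        ring)
    have e1 : z - PS - (g - PA - PS) = PA - (g - z) := by abel
    rw [e1] at hu
    have h2 : ‖PA - (g - z)‖ ≤ ‖PA‖ + ‖g - z‖ := norm_sub_le _ _
    have h3 : G g = G (g - z) + G (z - PS) := by
      rw [← map_add]
      have : g - z + (z - PS) = g - PS := by abel
      rw [this, map_sub, hGPS, sub_zero]
    rw [h3]
    refine (norm_add_le _ _).trans ?_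
    have h4 := G.le_opNorm (g - z)
    have h5 := G.le_opNorm (z - PS)
    have h6 : ‖z - PS‖ ≤ 2 * (δ * ‖g‖ + ‖g - z‖) := by linarith
    have h7 : ‖G‖ * ‖z - PS‖ ≤ ‖G‖ * (2 * (δ * ‖g‖ + ‖g - z‖)) := mul_le_mul_of_nonneg_left h6 hG0
    nlinarith [mul_nonneg hG0 hgz0]
  · -- `G` is small on the second part of the block
    have h1 : ∀ k ∈ Finset.Ico q t, ‖G (f k)‖ ≤ K 𝕜 N a * ‖τ‖ * (‖G‖ * C) := by
      intro k hk
      rw [Finset.mem_Ico] at hk
      have h2 := hc ⟨k - s, by omega⟩ (by simp only; omega)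
      simp only [show s + (k - s) = k by omega] at h2
      exact h2.trans (mul_le_mul_of_nonneg_left hγs hK0)
    have hD : ∀ v : StrongDual 𝕜 E, ‖∑ k ∈ Finset.Ico q t, v (e k) * G (f k)‖ ≤ δ * (‖v‖ * ‖G‖) := by
      intro v
      refine (norm_sum_le _ _).trans ?_
      have h2 : ∀ k ∈ Finset.Ico q t, ‖v (e k) * G (f k)‖ ≤ K 𝕜 N a * ‖τ‖ * (‖G‖ * C) * ‖v‖ * ‖e k‖ := by
        intro k hk
        rw [norm_mul]
        calc ‖v (e k)‖ * ‖G (f k)‖ ≤ (‖v‖ * ‖e k‖) * (K 𝕜 N a * ‖τ‖ * (‖G‖ * C)) :=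
              mul_le_mul (v.le_opNorm _) (h1 k hk) (norm_nonneg _) (by positivity)
          _ = _ := by ring
      refine (Finset.sum_le_sum h2).trans ?_
      rw [← Finset.mul_sum]
      have h3 : ∑ k ∈ Finset.Ico q t, ‖e k‖ ≤ C := sum_e_le e f
      calc K 𝕜 N a * ‖τ‖ * (‖G‖ * C) * ‖v‖ * ∑ k ∈ Finset.Ico q t, ‖e k‖
          ≤ K 𝕜 N a * ‖τ‖ * (‖G‖ * C) * ‖v‖ * C := mul_le_mul_of_nonneg_left h3 (by positivity)
        _ = (K 𝕜 N a * ‖τ‖ * (C * C)) * (‖v‖ * ‖G‖) := by ring
        _ ≤ δ * (‖v‖ * ‖G‖) := mul_le_mul_of_nonneg_right hδ (by positivity)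
    set x : E := ∑ k ∈ Finset.range q, G (f k) • e k with hx
    have hxm : x ∈ span 𝕜 (e '' Iio q) :=
      sum_mem fun k hk => smul_mem _ _ (subset_span ⟨k, Finset.mem_range.1 hk, rfl⟩)
    have hvx : ∀ v : StrongDual 𝕜 E, v x = ∑ k ∈ Finset.range q, v (e k) * G (f k) := by
      intro v
      rw [hx, map_sum]
      refine Finset.sum_congr rfl fun k _ => ?_
      rw [map_smul, smul_eq_mul, mul_comm]
    have hGsum : ∀ {r : ℕ} {v : StrongDual 𝕜 E}, v ∈ span 𝕜 (f '' Iio r) →
        G v = ∑ k ∈ Finset.range r, v (e k) * G (f k) := by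
      intro r v hv
      conv_lhs => rw [eq_sum h hv]
      rw [map_sum]
      exact Finset.sum_congr rfl fun k _ => map_smul G _ _
    obtain ⟨z', hz', hz1, hz2⟩ := P2 x hxm
    have h2 : z' x = G z' - ∑ k ∈ Finset.Ico q t, z' (e k) * G (f k) := by
      rw [hvx, hGsum hz', ← Finset.sum_range_add_sum_Ico _ hqt.le]
      ring
    have h3 : ‖z' x‖ ≤ 2 * ‖G‖ := by
      rw [h2]
      refine (norm_sub_le _ _).trans ?_
      have h4 := G.le_opNorm z'
      have h5 := hD z'
      have h6 : ‖G‖ * ‖z'‖ ≤ ‖G‖ := mul_le_of_le_one_right hG0 hz1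
      have h7 : δ * (‖z'‖ * ‖G‖) ≤ ‖G‖ := by
        calc δ * (‖z'‖ * ‖G‖) ≤ 1 * (1 * ‖G‖) := by gcongr
          _ = ‖G‖ := by ring
      linarith
    have h4 : ‖x‖ ≤ 4 * ‖G‖ := by linarith
    have h5 : ‖g x‖ ≤ δ * (‖g‖ * ‖G‖) := by
      have h6 : g x = - ∑ k ∈ Finset.Ico q t, g (e k) * G (f k) := by
        rw [hvx, eq_neg_iff_add_eq_zero, Finset.sum_range_add_sum_Ico _ hqt.le, htot]
      rw [h6, norm_neg]
      exact hD g
    have h6 : G z = z x := by
      rw [hGsum hz, hvx, ← Finset.sum_range_add_sum_Ico _ hsq.le]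
      symm
      rw [add_eq_left]
      refine Finset.sum_eq_zero fun k hk => ?_
      rw [apply_zero h hz (Finset.mem_Ico.1 hk).1, zero_mul]
    have h7 : G g = G (g - z) + (z - g) x + g x := by
      rw [map_sub, h6, sub_apply]
      ring
    rw [h7]
    refine (norm_add₃_le).trans ?_
    have h8 := G.le_opNorm (g - z)
    have h9 := (z - g).le_opNorm x
    rw [norm_sub_rev z g] at h9
    have h10 : ‖g - z‖ * ‖x‖ ≤ ‖g - z‖ * (4 * ‖G‖) := mul_le_mul_of_nonneg_left h4 hgz0
    nlinarith [mul_nonneg hG0 hg0, mul_nonneg hδ0 (mul_nonneg hG0 hg0)]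

/-- **Main theorem.** A biorthogonal system `(e_n, f_n)` with dense spans can be changed to one with the same properties which
is strong in the dual. -/
theorem exists_strong (h : Sys e f) : ∃ (x : ℕ → E) (φ : ℕ → StrongDual 𝕜 E), Sys x φ ∧
    ∀ (g : StrongDual 𝕜 E) (G : StrongDual 𝕜 (StrongDual 𝕜 E)), (∀ n, g (x n) * G (φ n) = 0) → G g = 0 := by
  choose Qf hQ1 hQ2 using exists_q h
  choose Tf hT1 hT2 using exists_t h
  let s : ℕ → ℕ := fun m => Nat.rec 0 (fun _ v => Tf (Qf v)) m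
  have hs : ∀ m, s (m + 1) = Tf (Qf (s m)) := fun _ => rfl
  have hs0 : s 0 = 0 := rfl
  have hsq : ∀ m, s m < Qf (s m) := fun m => hQ1 _
  have hqt : ∀ m, Qf (s m) < s (m + 1) := fun m => hT1 _
  have hmono : StrictMono s := strictMono_nat_of_lt_succ fun m => (hsq m).trans (hqt m)
  have hτex : ∀ m : ℕ, ∃ τ : 𝕜, τ ≠ 0 ∧ K 𝕜 (s (m + 1) - s m) (Qf (s m) - s m) * ‖τ‖ *
      (size e f (s (m + 1)) * size e f (s (m + 1))) ≤ 1 / ((m : ℝ) + 1) := by
    intro m
    set c := K 𝕜 (s (m + 1) - s m) (Qf (s m) - s m) * (size e f (s (m + 1)) * size e f (s (m + 1))) with hc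
    have hc0 : 0 ≤ c := mul_nonneg (K_nonneg _ _) (mul_nonneg (size_nonneg _ _ _) (size_nonneg _ _ _))
    have hpos : (0 : ℝ) < 1 / (((m : ℝ) + 1) * (c + 1)) := by positivity
    refine ⟨((1 / (((m : ℝ) + 1) * (c + 1)) : ℝ) : 𝕜), ?_, ?_⟩
    · exact_mod_cast hpos.ne'
    · rw [RCLike.norm_ofReal, abs_of_pos hpos]
      have e1 : K 𝕜 (s (m + 1) - s m) (Qf (s m) - s m) * (1 / (((m : ℝ) + 1) * (c + 1))) *
          (size e f (s (m + 1)) * size e f (s (m + 1))) = (c / (c + 1)) * (1 / ((m : ℝ) + 1)) := by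
        rw [hc]
        field_simp
      rw [e1]
      refine mul_le_of_le_one_left (by positivity) ?_
      rw [div_le_one (by positivity)]
      linarith
  choose τ hτ0 hτ using hτex
  -- the matrices
  let W : ∀ m, Matrix (Fin (s (m + 1) - s m)) (Fin (s (m + 1) - s m)) 𝕜 := fun m =>
    V (s (m + 1) - s m) (Qf (s m) - s m) (τ m)
  have hdet : ∀ m, IsUnit (W m).det := fun m => det_V (hτ0 m)
  let ι : Type := Σ m : ℕ, Fin (s (m + 1) - s m)
  let X : ι → E := fun p => ∑ j, W p.1 p.2 j • e (s p.1 + j)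
  let Φ : ι → StrongDual 𝕜 E := fun p => ∑ j, (W p.1)⁻¹ j p.2 • f (s p.1 + j)
  -- inverse matrix relations
  have hinv1 : ∀ m (j l : Fin (s (m + 1) - s m)), ∑ i, (W m)⁻¹ j i * W m i l = if j = l then 1 else 0 := by
    intro m j l
    have h2 := congrFun (congrFun (Matrix.nonsing_inv_mul (W m) (hdet m)) j) l
    rw [Matrix.mul_apply, Matrix.one_apply] at h2
    exact h2
  have hinv2 : ∀ m (j l : Fin (s (m + 1) - s m)), ∑ i, W m j i * (W m)⁻¹ i l = if j = l then 1 else 0 := by
    intro m j l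
    have h2 := congrFun (congrFun (Matrix.mul_nonsing_inv (W m) (hdet m)) j) l
    rw [Matrix.mul_apply, Matrix.one_apply] at h2
    exact h2
  -- the values
  have hval : ∀ (g : StrongDual 𝕜 E) (p : ι), g (X p) = ∑ j, W p.1 p.2 j * g (e (s p.1 + j)) := by
    intro g p
    rw [map_sum]
    exact Finset.sum_congr rfl fun j _ => map_smul g _ _
  have hval2 : ∀ (G : StrongDual 𝕜 (StrongDual 𝕜 E)) (p : ι),
      G (Φ p) = ∑ j, (W p.1)⁻¹ j p.2 * G (f (s p.1 + j)) := by
    intro G p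
    rw [map_sum]
    exact Finset.sum_congr rfl fun j _ => map_smul G _ _
  have hval3 : ∀ (p : ι) (v : E), Φ p v = ∑ j, (W p.1)⁻¹ j p.2 * f (s p.1 + j) v := by
    intro p v
    rw [sum_apply]
    exact Finset.sum_congr rfl fun j _ => rfl
  -- biorthogonality
  have hbi : ∀ p r : ι, Φ p (X r) = if p = r then 1 else 0 := by
    rintro ⟨m, i⟩ ⟨m', i'⟩
    rw [hval]
    simp only [hval3, h.bi]
    by_cases hm : m = m'
    · subst hm
      have e1 : ∀ j j' : Fin (s (m + 1) - s m),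
          (if s m + (j : ℕ) = s m + (j' : ℕ) then (1 : 𝕜) else 0) = if j = j' then 1 else 0 := by
        intro j j'
        have : (s m + (j : ℕ) = s m + (j' : ℕ)) ↔ j = j' := by
          rw [Nat.add_left_cancel_iff]
          exact Fin.ext_iff.symm
        simp only [this]
      simp only [e1, mul_ite, mul_one, mul_zero, Finset.sum_ite_eq', Finset.mem_univ, if_true]
      rw [hinv2]
      by_cases h1 : i = i'
      · subst h1
        simp
      · rw [if_neg (Ne.symm h1), if_neg]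
        intro h2
        exact h1 (eq_of_heq (Sigma.mk.inj h2).2)
    · rw [if_neg (by intro h2; exact hm (congrArg Sigma.fst h2))]
      refine Finset.sum_eq_zero fun j' _ => ?_
      rw [Finset.sum_eq_zero, mul_zero]
      intro j _
      rw [if_neg, mul_zero]
      intro h2
      have hj := j.2
      have hj' := j'.2
      rcases lt_or_gt_of_ne hm with h3 | h3
      · have h4 := hmono.monotone (Nat.succ_le_of_lt h3)
        rw [Nat.succ_eq_add_one] at h4
        omega
      · have h4 := hmono.monotone (Nat.succ_le_of_lt h3)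
        rw [Nat.succ_eq_add_one] at h4
        omega
  -- the old vectors are in the new spans
  have hX : ∀ k, e k ∈ span 𝕜 (range X) := by
    have key : ∀ m, ∀ k < s m, e k ∈ span 𝕜 (range X) := by
      intro m
      induction m with
      | zero => intro k hk; rw [hs0] at hk; omega
      | succ m ih =>
        intro k hk
        rcases lt_or_ge k (s m) with h1 | h1
        · exact ih k h1
        · obtain ⟨j0, hj0⟩ : ∃ j0 : Fin (s (m + 1) - s m), s m + (j0 : ℕ) = k :=
            ⟨⟨k - s m, by omega⟩, by simp only; omega⟩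
          have h2 : e k = ∑ i, (W m)⁻¹ j0 i • X ⟨m, i⟩ := by
            symm
            calc ∑ i, (W m)⁻¹ j0 i • X ⟨m, i⟩
                = ∑ i, ∑ l, ((W m)⁻¹ j0 i * W m i l) • e (s m + l) := by
                  refine Finset.sum_congr rfl fun i _ => ?_
                  rw [Finset.smul_sum]
                  refine Finset.sum_congr rfl fun l _ => ?_
                  rw [smul_smul]
              _ = ∑ l, (∑ i, (W m)⁻¹ j0 i * W m i l) • e (s m + l) := by
                  rw [Finset.sum_comm]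
                  refine Finset.sum_congr rfl fun l _ => ?_
                  rw [Finset.sum_smul]
              _ = e k := by
                  simp only [hinv1, ite_smul, one_smul, zero_smul, Finset.sum_ite_eq, Finset.mem_univ, if_true]
                  rw [hj0]
          rw [h2]
          exact sum_mem fun i _ => smul_mem _ _ (subset_span ⟨_, rfl⟩)
    intro k
    exact key (k + 1) k (lt_of_lt_of_le (Nat.lt_succ_self k) (hmono.id_le _))
  have hΦ : ∀ k, f k ∈ span 𝕜 (range Φ) := by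
    have key : ∀ m, ∀ k < s m, f k ∈ span 𝕜 (range Φ) := by
      intro m
      induction m with
      | zero => intro k hk; rw [hs0] at hk; omega
      | succ m ih =>
        intro k hk
        rcases lt_or_ge k (s m) with h1 | h1
        · exact ih k h1
        · obtain ⟨j0, hj0⟩ : ∃ j0 : Fin (s (m + 1) - s m), s m + (j0 : ℕ) = k :=
            ⟨⟨k - s m, by omega⟩, by simp only; omega⟩
          have h2 : f k = ∑ i, W m i j0 • Φ ⟨m, i⟩ := by
            ext v
            rw [sum_apply]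
            symm
            calc ∑ i, (W m i j0 • Φ ⟨m, i⟩) v
                = ∑ i, ∑ l, ((W m)⁻¹ l i * W m i j0) * f (s m + l) v := by
                  refine Finset.sum_congr rfl fun i _ => ?_
                  rw [smul_apply, hval3, smul_eq_mul, Finset.mul_sum]
                  refine Finset.sum_congr rfl fun l _ => ?_
                  ring
              _ = ∑ l, (∑ i, (W m)⁻¹ l i * W m i j0) * f (s m + l) v := by
                  rw [Finset.sum_comm]
                  refine Finset.sum_congr rfl fun l _ => ?_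
                  rw [Finset.sum_mul]
              _ = f k v := by
                  simp only [hinv1, ite_mul, one_mul, zero_mul, Finset.sum_ite_eq', Finset.mem_univ, if_true]
                  rw [hj0]
          rw [h2]
          exact sum_mem fun i _ => smul_mem _ _ (subset_span ⟨_, rfl⟩)
    intro k
    exact key (k + 1) k (lt_of_lt_of_le (Nat.lt_succ_self k) (hmono.id_le _))
  -- strongness
  have hstrong : ∀ (g : StrongDual 𝕜 E) (G : StrongDual 𝕜 (StrongDual 𝕜 E)), (∀ p, g (X p) * G (Φ p) = 0) →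
      G g = 0 := by
    intro g G hgG
    have hi : ∀ m (i : Fin (s (m + 1) - s m)), (∑ j, W m i j * g (e (s m + j))) *
        (∑ j, (W m)⁻¹ j i * G (f (s m + j))) = 0 := by
      intro m i
      have := hgG ⟨m, i⟩
      rw [hval, hval2] at this
      exact this
    have hzero : ∀ m, ∑ k ∈ Finset.range (s m), g (e k) * G (f k) = 0 := by
      intro m
      induction m with
      | zero => rw [hs0, Finset.sum_range_zero]
      | succ m ih =>
        refine (block_bound h (hsq m) (hqt m) (hQ2 _) (hT2 _) (hτ0 m) ?_ (hτ m) g G (z := 0) (zero_mem _) ih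
          (hi m)).1
        rw [div_le_one (by positivity)]
        have : (0 : ℝ) ≤ m := Nat.cast_nonneg m
        linarith
    -- approximate `g`
    by_contra hne
    have hpos : 0 < ‖G g‖ := norm_pos_iff.2 hne
    have hGpos : 0 < ‖G‖ := by
      rcases (norm_nonneg G).eq_or_lt with h1 | h1
      · have h2 := G.le_opNorm g
        rw [← h1, zero_mul] at h2
        linarith
      · exact h1
    set ε := ‖G g‖ / (‖G‖ * (7 + 2 * ‖g‖)) with hε
    have hg0 := norm_nonneg g
    have hε0 : 0 < ε := by positivity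
    obtain ⟨z, hz, hzg⟩ := h.dense_f.exists_dist_lt g hε0
    have hz' : ∃ r, z ∈ span 𝕜 (f '' Iio r) := by
      have hz2 : z ∈ span 𝕜 (range f) := hz
      clear hzg hz
      induction hz2 using Submodule.span_induction with
      | mem x hx =>
        obtain ⟨j, rfl⟩ := hx
        exact ⟨j + 1, subset_span ⟨j, Nat.lt_succ_self j, rfl⟩⟩
      | zero => exact ⟨0, zero_mem _⟩
      | add x y _ _ hx hy =>
        obtain ⟨a, ha⟩ := hx
        obtain ⟨b, hb⟩ := hy
        refine ⟨max a b, add_mem ?_ ?_⟩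
        · exact span_mono (image_mono (Iio_subset_Iio (le_max_left _ _))) ha
        · exact span_mono (image_mono (Iio_subset_Iio (le_max_right _ _))) hb
      | smul c x _ hx =>
        obtain ⟨a, ha⟩ := hx
        exact ⟨a, smul_mem _ _ ha⟩
    obtain ⟨r, hr⟩ := hz'
    obtain ⟨m0, hm0⟩ := exists_nat_one_div_lt hε0
    set m := max r m0 with hm
    have hzm : z ∈ span 𝕜 (f '' Iio (s m)) :=
      span_mono (image_mono (Iio_subset_Iio ((le_max_left _ _).trans (hmono.id_le m)))) hr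
    have hδ : (1 : ℝ) / ((m : ℝ) + 1) < ε := by
      refine lt_of_le_of_lt ?_ hm0
      have : (m0 : ℝ) ≤ m := by exact_mod_cast le_max_right _ _
      exact one_div_le_one_div_of_le (by positivity) (by linarith)
    have hδ1 : (1 : ℝ) / ((m : ℝ) + 1) ≤ 1 := by
      rw [div_le_one (by positivity)]
      have : (0 : ℝ) ≤ m := Nat.cast_nonneg m
      linarith
    have hb := (block_bound h (hsq m) (hqt m) (hQ2 _) (hT2 _) (hτ0 m) hδ1 (hτ m) g G hzm (hzero m) (hi m)).2
    rw [dist_eq_norm] at hzg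
    have h1 : 5 * ‖g - z‖ + 2 * (1 / ((m : ℝ) + 1)) * ‖g‖ ≤ (5 + 2 * ‖g‖) * ε := by
      have h2 : (1 / ((m : ℝ) + 1)) * ‖g‖ ≤ ε * ‖g‖ := mul_le_mul_of_nonneg_right hδ.le hg0
      nlinarith
    have h2 : ‖G g‖ ≤ ‖G‖ * ((5 + 2 * ‖g‖) * ε) := hb.trans (mul_le_mul_of_nonneg_left h1 hGpos.le)
    have h3 : ‖G‖ * ((7 + 2 * ‖g‖) * ε) = ‖G g‖ := by
      rw [hε]
      field_simp
    nlinarith [mul_pos hGpos hε0]
  -- renumber
  have : Infinite ι := by
    refine Infinite.of_injective (fun m : ℕ => (⟨m, ⟨0, ?_⟩⟩ : ι)) ?_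
    · have := hmono (Nat.lt_succ_self m)
      rw [Nat.succ_eq_add_one] at this
      omega
    · intro a b hab
      exact congrArg Sigma.fst hab
  obtain ⟨ε⟩ : Nonempty (ℕ ≃ ι) := nonempty_equiv_of_countable
  refine ⟨fun n => X (ε n), fun n => Φ (ε n), ⟨?_, ?_, ?_⟩, ?_⟩
  · intro i j
    rw [hbi]
    simp only [EmbeddingLike.apply_eq_iff_eq]
  · have : range (fun n => X (ε n)) = range X := ε.surjective.range_comp X
    rw [this]
    refine h.dense_e.mono ?_
    intro v hv
    exact (span_le.2 (by rintro _ ⟨k, rfl⟩; exact hX k) : span 𝕜 (range e) ≤ span 𝕜 (range X)) hv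
  · have : range (fun n => Φ (ε n)) = range Φ := ε.surjective.range_comp Φ
    rw [this]
    refine h.dense_f.mono ?_
    intro v hv
    exact (span_le.2 (by rintro _ ⟨k, rfl⟩; exact hΦ k) : span 𝕜 (range f) ≤ span 𝕜 (range Φ)) hv
  · intro g G hgG
    refine hstrong g G fun p => ?_
    have := hgG (ε.symm p)
    simpa using this

end Pool.Agent.J4.H66.Strong
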